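import Mathlib

/-!
# MP_f969e6_lc : an iso-dual binary trinomial polycyclic code whose generator is not a square root

For `t = X ^ 20 + X ^ 10 + 1` and `g = X ^ 10 + X ^ 9 + X ^ 7 + X ^ 6 + X ^ 2 + X + 1`, the code
generated by `g` is mapped onto its dual by the exchange of the two halves of the coordinates,
while `g ^ 2 ≠ t`.
-/

namespace Pool.Agent.Results.MP_f969e6_lc.HalfSwapIsoDual

open Polynomial

/-- The trinomial `x ^ n + x ^ i + 1` over `F_2`. -/
noncomputable def trinomial (n i : ℕ) : (ZMod 2)[X] := X ^ n + X ^ i + 1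

/-- The polynomial `c_0 + c_1 x + ... + c_(n-1) x ^ (n-1)` of a word. -/
noncomputable def toPoly {n : ℕ} (c : Fin n → ZMod 2) : (ZMod 2)[X] :=
  ∑ k : Fin n, C (c k) * X ^ (k : ℕ)

/-- The polycyclic code with respect to `x ^ n + x ^ i + 1` generated by `g`: the words whose class
in `F_2[x] / (x ^ n + x ^ i + 1)` lies in the ideal generated by the class of `g`. -/
def code (n i : ℕ) (g : (ZMod 2)[X]) : Set (Fin n → ZMod 2) :=
  {c | AdjoinRoot.mk (trinomial n i) (toPoly c) ∈
    Ideal.span {AdjoinRoot.mk (trinomial n i) g}}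

/-- The dual of a binary code for the standard inner product. -/
def dual {n : ℕ} (C : Set (Fin n → ZMod 2)) : Set (Fin n → ZMod 2) :=
  {v | ∀ c ∈ C, ∑ k, v k * c k = 0}

/-- A binary code is iso-dual if some permutation of the coordinates maps it onto its dual. -/
def IsIsoDual {n : ℕ} (C : Set (Fin n → ZMod 2)) : Prop :=
  ∃ s : Equiv.Perm (Fin n), (fun c : Fin n → ZMod 2 => fun k => c (s k)) '' C = dual C

/-! ### The generator -/

/-- The coefficients of `g`. -/
def gco (m : ℕ) : ZMod 2 := if Nat.testBit 0x6c7 m then 1 else 0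

/-- The polynomial `X ^ 10 + X ^ 9 + X ^ 7 + X ^ 6 + X ^ 2 + X + 1`. -/
noncomputable def g : (ZMod 2)[X] := X ^ 10 + X ^ 9 + X ^ 7 + X ^ 6 + X ^ 2 + X + 1

/-- The generator matrix. -/
def G : Matrix (Fin 10) (Fin 20) (ZMod 2) :=
  fun j k => if (j : ℕ) ≤ k then gco (k - j) else 0

/-- The exchange of the two halves. -/
def half : Equiv.Perm (Fin 20) := Equiv.addRight 10

def Lm : Matrix (Fin 10) (Fin 20) (ZMod 2) := fun j k =>
  if Nat.testBit ([1024, 3072, 6144, 13312, 27648, 55296, 110592, 221184, 443392, 887808].getD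
    (j : ℕ) 0) k then 1 else 0

def Mm : Matrix (Fin 20) (Fin 10) (ZMod 2) := fun j k =>
  if Nat.testBit ([0, 0, 0, 0, 0, 0, 0, 0, 0, 0, 795, 566, 108, 216, 432, 864, 704, 384, 768,
    512].getD (j : ℕ) 0) k then 1 else 0

theorem orth : ∀ i j : Fin 10, ∑ k, G i (half k) * G j k = 0 := by
  decide +kernel

theorem key : ∀ a b : Fin 20, (if half a = b then (1 : ZMod 2) else 0) =
    ∑ j, G j a * Lm j b + ∑ j, Mm a j * G j b := by
  decide +kernel

theorem gco_zero {m : ℕ} (hm : 11 ≤ m) : gco m = 0 := by
  unfold gco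
  rw [Nat.testBit_lt_two_pow]
  · simp
  · calc 0x6c7 < 2 ^ 11 := by norm_num
      _ ≤ 2 ^ m := Nat.pow_le_pow_right (by norm_num) hm

theorem coeff_g (m : ℕ) : g.coeff m = gco m := by
  by_cases hm : 11 ≤ m
  · rw [gco_zero hm]
    unfold g
    simp only [coeff_add, coeff_X_pow, coeff_one, coeff_X]
    rw [if_neg (by omega), if_neg (by omega), if_neg (by omega), if_neg (by omega),
      if_neg (by omega), if_neg (by omega), if_neg (by omega)]
    simp
  · have : m < 11 := by omega
    unfold g
    simp only [coeff_add, coeff_X_pow, coeff_one, coeff_X]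
    interval_cases m <;> simp <;> decide

theorem coeff_toPoly {n : ℕ} (c : Fin n → ZMod 2) (m : ℕ) :
    (toPoly c).coeff m = if hm : m < n then c ⟨m, hm⟩ else 0 := by
  unfold toPoly
  simp only [finsetSum_coeff, coeff_C_mul, coeff_X_pow, mul_ite, mul_one, mul_zero]
  split_ifs with hm
  · rw [Finset.sum_eq_single (⟨m, hm⟩ : Fin n)]
    · simp
    · intro b _ hb
      rw [if_neg]
      intro h
      exact hb (Fin.ext h.symm)
    · intro h
      exact absurd (Finset.mem_univ _) h
  · apply Finset.sum_eq_zero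
    intro b _
    rw [if_neg]
    have := b.isLt
    omega

theorem coeff_mul_toPoly (a : Fin 10 → ZMod 2) (m : ℕ) :
    (g * toPoly a).coeff m = ∑ j : Fin 10, a j * (if (j : ℕ) ≤ m then gco (m - j) else 0) := by
  unfold toPoly
  rw [Finset.mul_sum, finsetSum_coeff]
  apply Finset.sum_congr rfl
  intro j _
  rw [mul_comm, mul_assoc, coeff_C_mul, mul_comm (X ^ (j : ℕ)), coeff_mul_X_pow']
  simp only [coeff_g]

/-- The word with message `a`. -/
def enc (a : Fin 10 → ZMod 2) : Fin 20 → ZMod 2 := fun k => ∑ j, a j * G j k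

theorem toPoly_enc (a : Fin 10 → ZMod 2) : toPoly (enc a) = g * toPoly a := by
  ext m
  rw [coeff_mul_toPoly, coeff_toPoly]
  split_ifs with hm
  · rfl
  · symm
    apply Finset.sum_eq_zero
    intro j _
    have := j.isLt
    rw [if_pos (by omega), gco_zero (by omega), mul_zero]

theorem toPoly_injective {n : ℕ} {c d : Fin n → ZMod 2} (hcd : toPoly c = toPoly d) : c = d := by
  funext k
  have := congrArg (fun p => p.coeff (k : ℕ)) hcd
  simpa [coeff_toPoly] using this

theorem dvd_trinomial : g ∣ trinomial 20 10 := by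
  refine ⟨X ^ 10 + X ^ 9 + X ^ 8 + X ^ 4 + X ^ 3 + X + 1, ?_⟩
  have h2 : (2 : (ZMod 2)[X]) = 0 := CharTwo.two_eq_zero
  unfold trinomial g
  linear_combination (-(X + X ^ 2 + X ^ 3 + X ^ 4 + X ^ 5 + X ^ 6 + X ^ 7 + X ^ 8 + 2 * X ^ 9 +
    3 * X ^ 10 + 2 * X ^ 11 + X ^ 12 + X ^ 13 + X ^ 14 + X ^ 15 + X ^ 16 + X ^ 17 + X ^ 18 +
    X ^ 19) : (ZMod 2)[X]) * h2

theorem monic_g : g.Monic := by
  unfold g
  monicity!

theorem natDegree_g : g.natDegree = 10 := by
  unfold g
  compute_degree!

theorem mem_code_iff (c : Fin 20 → ZMod 2) : c ∈ code 20 10 g ↔ ∃ a, c = enc a := by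
  constructor
  · intro hc
    have h1 : g ∣ toPoly c := by
      unfold code at hc
      rw [Set.mem_ofPred_eq, Ideal.mem_span_singleton] at hc
      obtain ⟨r, hr⟩ := hc
      obtain ⟨q, rfl⟩ := AdjoinRoot.mk_surjective r
      rw [← map_mul, AdjoinRoot.mk_eq_mk] at hr
      have h2 : g ∣ toPoly c - g * q := dvd_trans dvd_trinomial hr
      exact (dvd_sub_left (dvd_mul_right g q)).mp h2
    obtain ⟨q, hq⟩ := h1
    have hdeg : q.natDegree < 10 := by
      by_cases hq0 : q = 0
      · rw [hq0]; simp
      · have h3 : (toPoly c).natDegree = 10 + q.natDegree := by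
          rw [hq, monic_g.natDegree_mul' hq0, natDegree_g]
        have h4 : (toPoly c).natDegree < 20 := by
          by_contra hcon
          rw [not_lt] at hcon
          have h5 : toPoly c ≠ 0 := by
            rw [hq]
            exact mul_ne_zero monic_g.ne_zero hq0
          have h6 := leadingCoeff_ne_zero.mpr h5
          rw [leadingCoeff, coeff_toPoly, dif_neg (by omega)] at h6
          exact h6 rfl
        omega
    refine ⟨fun j => q.coeff j, ?_⟩
    apply toPoly_injective
    rw [toPoly_enc, hq]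
    congr 1
    ext m
    rw [coeff_toPoly]
    split_ifs with hm
    · rfl
    · exact coeff_eq_zero_of_natDegree_lt (by omega)
  · rintro ⟨a, rfl⟩
    unfold code
    rw [Set.mem_ofPred_eq, Ideal.mem_span_singleton, toPoly_enc, map_mul]
    exact dvd_mul_right _ _

theorem sq_ne : g ^ 2 ≠ trinomial 20 10 := by
  intro hcon
  have h2 := congrArg (fun p => p.coeff 2) hcon
  simp only [sq, coeff_mul, trinomial, coeff_add, coeff_X_pow, coeff_one, coeff_g] at h2
  revert h2
  decide

theorem mem_dual_iff (v : Fin 20 → ZMod 2) :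
    v ∈ dual (code 20 10 g) ↔ ∀ j : Fin 10, ∑ k, v k * G j k = 0 := by
  constructor
  · intro hv j
    have := hv (enc (Pi.single j 1)) ((mem_code_iff _).mpr ⟨_, rfl⟩)
    simpa [enc, Pi.single_apply] using this
  · intro hv c hc
    obtain ⟨a, rfl⟩ := (mem_code_iff _).mp hc
    unfold enc
    simp only [Finset.mul_sum]
    rw [Finset.sum_comm]
    apply Finset.sum_eq_zero
    intro j _
    calc ∑ k, v k * (a j * G j k) = a j * ∑ k, v k * G j k := by
          rw [Finset.mul_sum]
          apply Finset.sum_congr rfl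
          intro k _
          ring
      _ = 0 := by rw [hv j, mul_zero]

theorem isoDual : IsIsoDual (code 20 10 g) := by
  refine ⟨half, ?_⟩
  ext v
  rw [mem_dual_iff]
  constructor
  · rintro ⟨c, hc, rfl⟩ j
    obtain ⟨a, rfl⟩ := (mem_code_iff _).mp hc
    unfold enc
    simp only [Finset.sum_mul]
    rw [Finset.sum_comm]
    apply Finset.sum_eq_zero
    intro i _
    calc ∑ k, a i * G i (half k) * G j k = a i * ∑ k, G i (half k) * G j k := by
          rw [Finset.mul_sum]
          apply Finset.sum_congr rfl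
          intro k _
          ring
      _ = 0 := by rw [orth i j, mul_zero]
  · intro hv
    refine ⟨enc (fun j => ∑ b, Lm j b * v b), (mem_code_iff _).mpr ⟨_, rfl⟩, ?_⟩
    have hkey : ∀ a : Fin 20, v (half a) = enc (fun j => ∑ b, Lm j b * v b) a := by
      intro a
      have h1 : v (half a) = ∑ b, (if half a = b then (1 : ZMod 2) else 0) * v b := by
        simp
      rw [h1]
      simp only [key]
      simp only [add_mul, Finset.sum_add_distrib, Finset.sum_mul]
      have h2 : ∑ b, ∑ j, Mm a j * G j b * v b = 0 := by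
        rw [Finset.sum_comm]
        apply Finset.sum_eq_zero
        intro j _
        calc ∑ b, Mm a j * G j b * v b = Mm a j * ∑ b, v b * G j b := by
              rw [Finset.mul_sum]
              apply Finset.sum_congr rfl
              intro k _
              ring
          _ = 0 := by rw [hv j, mul_zero]
      rw [h2, add_zero]
      unfold enc
      rw [Finset.sum_comm]
      apply Finset.sum_congr rfl
      intro j _
      rw [Finset.sum_mul]
      apply Finset.sum_congr rfl
      intro b _
      ring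
    funext k
    show enc (fun j => ∑ b, Lm j b * v b) (half k) = v k
    rw [← hkey]
    congr 1
    revert k
    decide

/-- **Main result (negative answer).** For `n = 20` and `i = 10` there is a monic divisor `g` of
`x ^ 20 + x ^ 10 + 1` over `F_2` such that the binary polycyclic code generated by `g` is iso-dual
although `g ^ 2 ≠ x ^ 20 + x ^ 10 + 1`. -/
theorem result : ∃ g : (ZMod 2)[X], g.Monic ∧ g ∣ trinomial 20 10 ∧
    IsIsoDual (code 20 10 g) ∧ g ^ 2 ≠ trinomial 20 10 :=
  ⟨g, monic_g, dvd_trinomial, isoDual, sq_ne⟩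

end Pool.Agent.Results.MP_f969e6_lc.HalfSwapIsoDual
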